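import Pool.Agent.Helper94_SQS.Stmts

/-! Module FIL. -/

set_option autoImplicit false

open MeasureTheory Set

namespace Pool.Agent.SQS.H44

theorem meas_big {X : Type} [MeasurableSpace X] (P : M → X → Prop) (hP : ∀ m, Measurable (P m)) :
    Measurable fun f : X => Big {m | P m f} := by
  unfold Big
  refine Measurable.forall fun k => ?_
  refine Measurable.exists fun N => ?_
  refine Measurable.forall fun n => ?_
  refine Measurable.forall fun hn => ?_
  refine Measurable.exists fun G => ?_
  refine Measurable.and measurable_const ?_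
  refine Measurable.forall fun H => ?_
  refine Measurable.forall fun h => ?_
  refine Measurable.forall fun hG => ?_
  exact hP _

theorem fil (hB : BigStmt) : FilStmt := by
  intro S _ h ψ hm hlim
  let _ : MeasurableSpace C(S, ℝ) :=
    ⨆ x : S, MeasurableSpace.comap (fun f : C(S, ℝ) => f x) (borel ℝ)
  have hm' : ∀ m, Measurable (h m) := hm
  change Measurable ψ
  apply measurable_of_Ioi
  intro q
  have e : ψ ⁻¹' Ioi q = ⋃ r : {r : ℚ // q < r}, {f | Big {m | ((r : ℚ) : ℝ) < h m f}} := by
    ext f
    simp only [mem_preimage, mem_Ioi, mem_iUnion, Subtype.exists, mem_ofPred_eq]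
    constructor
    · intro hq
      obtain ⟨r, h1, h2⟩ := exists_rat_btwn hq
      refine ⟨r, h1, hB.1 _ _ ?_ (hlim f (ψ f - r) (by linarith))⟩
      intro m hmm
      have hmm' : |h m f - ψ f| < ψ f - r := hmm
      have := (abs_lt.mp hmm').1
      show (r : ℝ) < h m f
      linarith
    · rintro ⟨r, h1, h2⟩
      by_contra hle
      push Not at hle
      have h3 := hlim f (r - q) (by linarith)
      obtain ⟨m, hm1, hm2⟩ := hB.2.2.1 _ (hB.2.1 _ _ h2 h3)
      have hm2' : |h m f - ψ f| < r - q := hm2
      have h4 := (abs_lt.mp hm2').2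
      have h5 : (r : ℝ) < h m f := hm1
      linarith
  rw [e]
  refine MeasurableSet.iUnion fun r => ?_
  exact measurableSet_setOfPred.mpr (meas_big _ fun m =>
    measurableSet_setOfPred.mp (measurableSet_lt measurable_const (hm' m)))

end Pool.Agent.SQS.H44
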