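import Pool.Agent.Helper94_SQS.Stmts

/-! Module INJ. -/

set_option autoImplicit false

namespace Pool.Agent.SQS.H44

open Cardinal

/-- code of an index -/
def code : Z → List ℕ → ℕ × ℕ × (ℕ → Bool)
  | .nil, _ => (0, 0, fun _ => false)
  | .pt x, _ => (1, 0, x)
  | .cl n v, _ => (2, n, v)
  | .sq _, [] => (3, 0, fun _ => false)
  | .sq ξ, k :: l => code (ξ k) l

theorem code_inj : ∀ ζ ζ' : Z, code ζ = code ζ' → ζ = ζ' := by
  intro ζ
  induction ζ with
  | nil =>
    intro ζ' h
    have h0 := congrFun h []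
    cases ζ' <;> simp [code] at h0 ⊢
  | pt x =>
    intro ζ' h
    have h0 := congrFun h []
    cases ζ' <;> simp [code] at h0 ⊢
    exact h0
  | cl n v =>
    intro ζ' h
    have h0 := congrFun h []
    cases ζ' <;> simp [code] at h0 ⊢
    exact h0
  | sq ξ ih =>
    intro ζ' h
    have h0 := congrFun h []
    cases ζ' with
    | nil => simp [code] at h0
    | pt x => simp [code] at h0
    | cl n v => simp [code] at h0
    | sq ξ' =>
      congr 1
      funext k
      apply ih k
      funext l
      exact congrFun h (k :: l)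

theorem inj : InjStmt := by
  have h1 : #(ℕ → Bool) = 𝔠 := by simp
  have h2 : #(List ℕ → ℕ × ℕ × (ℕ → Bool)) = 𝔠 := by
    simp
  have h3 : #Z ≤ 𝔠 := by
    rw [← h2]
    exact Cardinal.mk_le_of_injective (f := code) (fun a b h => code_inj a b h)
  have h4 : #(ℕ ⊕ Z) ≤ #(ℕ → Bool) := by
    rw [h1, Cardinal.mk_sum]
    simp only [Cardinal.lift_id, Cardinal.mk_nat]
    exact Cardinal.add_le_of_le Cardinal.aleph0_le_continuum Cardinal.aleph0_le_continuum h3
  obtain ⟨e⟩ := (Cardinal.le_def _ _).mp h4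
  exact ⟨e, e.injective⟩

end Pool.Agent.SQS.H44
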